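import Mathlib
import Pool.Agent.V11310.CL.Open
import Pool.Agent.TH442.NF.Fin
import Pool.Agent.TH603.Cut.Deg

set_option autoImplicit false

/-!
# Nef classes in the orbits of the closure of the known classes are non-special

Let `P 1, …, P n`, `n ≥ 4`, be very general points of the complex projective plane, and let `(d; w)` be
a nef class on the blow-up `X_n`. Finitely many reflections in classes `H - E_i - E_j - E_k` carry
`(d; w)` to a standard class. If some class `(d'; w')` to which `(d; w)` can be carried is reached,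
then `(d; w)` is non-special.

`Reached N0 d w` (`Pool.Agent.V11310.CL.Reached`): the multiset of the multiplicities `w` belongs, in
degree `d`, to the smallest class of multisets of multiplicities with one of the two signs (no curves,
independent conditions) which contains the comparable, the large and the good classes (`Base`) and is
closed under collisions (a point of multiplicity `μ` may be replaced by points `M'` if `M'` is in the
class in degree `μ - 1`), quadratic transformations, doubling (four points of multiplicity `m` for one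
point of the multiplicities `2 m` and `2 m + 1`), adding or removing points and changing the degree.
-/

namespace Pool.Agent.Results.MP_0f5763_ag.NefCollisionClosure

open MvPolynomial
open Pool.Agent.Y536.SH (Standard)
open Pool.Agent.V11310.CL (Base Reached Carries reached_exp reached_of_base)

/-- The homogeneous ideal of the point `(p 0 : p 1 : 1)`. -/
noncomputable def pt (p : Fin 2 → ℂ) : Ideal (MvPolynomial (Fin 3) ℂ) :=
  Ideal.span {X 0 - C (p 0) * X 2, X 1 - C (p 1) * X 2}

/-- The class `(d; w)` is nef at the points `P`: it meets every irreducible curve nonnegatively. An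
irreducible curve other than the exceptional ones is given by an irreducible form `G` of degree `e`
with multiplicity exactly `u i` at `P i`. -/
def Nef {n : ℕ} (P : Fin n → Fin 2 → ℂ) (d : ℕ) (w : Fin n → ℕ) : Prop :=
  ∀ (G : MvPolynomial (Fin 3) ℂ) (e : ℕ) (u : Fin n → ℕ), Irreducible G → G.IsHomogeneous e →
    (∀ i, G ∈ pt (P i) ^ (u i) ∧ G ∉ pt (P i) ^ (u i + 1)) → ∑ i, w i * u i ≤ d * e

/-- The linear system `(d; w)` at the points `P` is non-special: the space of forms of degree `d`
vanishing to order at least `w i` at `P i` has dimension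
`max (0, (d + 1) (d + 2) / 2 - ∑ w i (w i + 1) / 2)`. -/
def NonSpecial {n : ℕ} (P : Fin n → Fin 2 → ℂ) (d : ℕ) (w : Fin n → ℕ) : Prop :=
  Module.finrank ℂ
    ↥(homogeneousSubmodule (Fin 3) ℂ d ⊓
      Submodule.restrictScalars ℂ (⨅ i : Fin n, pt (P i) ^ (w i)))
  = Nat.choose (d + 2) 2 - ∑ i, Nat.choose (w i + 1) 2

/-- `Very n Q`: the statement `Q` holds for all `n`-tuples of points outside countably many
hypersurfaces. -/
def Very (n : ℕ) (Q : (Fin n → Fin 2 → ℂ) → Prop) : Prop :=
  ∃ F : ℕ → MvPolynomial (Fin n × Fin 2) ℂ, (∀ j, F j ≠ 0) ∧ ∀ P : Fin n → Fin 2 → ℂ,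
    (∀ j, MvPolynomial.eval (fun ij : Fin n × Fin 2 => P ij.1 ij.2) (F j) ≠ 0) → Q P

open Pool.Agent.TH442.NF in
/-- Every nef class is carried to a standard one. -/
theorem nef_std {K : Type} [Field K] [CharZero K] {n : ℕ} : ∀ (d : ℕ) {w : Fin n → ℕ}
    {P : Fin n → Fin 2 → K}, AlgebraicIndependent ℚ (fun ij : Fin n × Fin 2 => P ij.1 ij.2) →
    NefAt P d w → ∃ (d' : ℕ) (w' : Fin n → ℕ),
      Relation.ReflTransGen Step (cls d w) (cls d' w') ∧ Standard d' w' := by
  intro d
  induction d using Nat.strong_induction_on with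
  | _ d ih =>
    intro w P hP hN
    by_cases hs : Standard d w
    · exact ⟨d, w, Relation.ReflTransGen.refl, hs⟩
    · unfold Pool.Agent.Y536.SH.Standard at hs
      push Not at hs
      obtain ⟨i, j, k, hij, hik, hjk, h⟩ := hs
      have hinj : Function.Injective (![i, j, k] : Fin 3 → Fin n) := by
        intro a b hab
        fin_cases a <;> fin_cases b <;> simp_all
      have hst : Relation.ReflTransGen Step (cls d w) (refl ![i, j, k] (cls d w)) :=
        Relation.ReflTransGen.single ⟨![i, j, k], hinj, rfl⟩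
      obtain ⟨P', d1, w1, hP', hN', he, -, -⟩ := chain hP hN hst
      have h1 : ((d1 : ℕ) : ℤ) = (d : ℤ) + ((d : ℤ) - w i - w j - w k) := by
        have h2 := congrArg Prod.fst he
        exact h2.symm
      have h3 : d1 < d := by omega
      obtain ⟨d', w', h4, h5⟩ := ih d1 h3 hP' hN'
      rw [he] at hst
      exact ⟨d', w', hst.trans h4, h5⟩

theorem result : ∃ N0 : ℕ, ∀ n : ℕ, 4 ≤ n →
    (∀ (d : ℕ) (w : Fin n → ℕ), Base N0 d w → Reached N0 d w) ∧
    Very n fun P => ∀ (d : ℕ) (w : Fin n → ℕ), Nef P d w →
      (∃ (d' : ℕ) (w' : Fin n → ℕ), Carries d w d' w' ∧ Standard d' w') ∧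
      ∀ (d' : ℕ) (w' : Fin n → ℕ), Carries d w d' w' → Reached N0 d' w' → NonSpecial P d w := by
  have hNef : ∀ {n : ℕ} {P : Fin n → Fin 2 → ℂ} {d : ℕ} {w : Fin n → ℕ}, Nef P d w →
      Pool.Agent.TH442.NF.NefAt P d w := by
    intro n P d w h
    rw [Pool.Agent.TH442.NF.nefAt_iff]
    intro G e u hG
    have h1 := h G e u hG.irreducible hG.homogeneous hG.mult
    unfold Pool.Agent.TH167.SHDefs.inter
    have h2 : ((∑ i, w i * u i : ℕ) : ℤ) ≤ ((d * e : ℕ) : ℤ) := by exact_mod_cast h1
    push_cast at h2
    omega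
  obtain ⟨N0, hN0⟩ := Pool.Agent.Y939.NC.reg_exp
  refine ⟨N0, fun n hn => ⟨fun d w => reached_of_base, ?_⟩⟩
  obtain ⟨F, hF, hF'⟩ := Pool.Agent.TH603.Cut.exists_family (Fin n × Fin 2)
  refine ⟨F, hF, fun P hP d w hN => ⟨nef_std d (hF' _ hP) (hNef hN), fun d' w' hc h => ?_⟩⟩
  refine Pool.Agent.TH442.NF.of_chain (hF' _ hP) (hNef hN) hc fun P' hP' => ?_
  exact reached_exp hN0 h hP'

end Pool.Agent.Results.MP_0f5763_ag.NefCollisionClosure
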